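import Pool.Agent.H53.GM.Targets2

/-!
# Row PAD of the board `gm2_modules`: padding the forbidden structures
-/

set_option autoImplicit false
set_option linter.unusedVariables false

namespace Pool.Agent.H97.GM

open Pool.Agent.H68.BP Pool.Agent.H58.SF Pool.Agent.H53.GC Pool.Agent.H53.GR Pool.Agent.H53.GM
open Classical

variable {τ σ : Sig}

/-- the structure `D` on the first elements of `Fin N` -/
def pad {n : ℕ} (N : ℕ) (D : Str τ (Fin n)) : Str τ (Fin N) :=
  fun l z => ∃ z' : Fin (τ.ar l) → Fin n, D l z' ∧ ∀ i, (z i : ℕ) = z' i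

theorem pad_hom {n N : ℕ} (hn : n ≤ N) (D : Str τ (Fin n)) {W : Type} (M : Str τ W)
    (f : Fin N → W) (h : IsHom (pad N D) M f) : IsHom D M (fun v => f (Fin.castLE hn v)) := by
  intro l x hx
  exact h l (fun i => Fin.castLE hn (x i)) ⟨x, hx, fun i => rfl⟩

theorem pad_hom' {n N : ℕ} (D : Str τ (Fin n)) {W : Type} [hW : Nonempty W] (M : Str τ W)
    (f : Fin n → W) (h : IsHom D M f) : ∃ g : Fin N → W, IsHom (pad N D) M g := by
  refine ⟨fun v => if hv : (v : ℕ) < n then f ⟨v, hv⟩ else Classical.arbitrary W, ?_⟩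
  rintro l x ⟨z', hz', hx⟩
  have e : (fun i => if hv : (x i : ℕ) < n then f ⟨x i, hv⟩ else Classical.arbitrary W) =
      fun i => f (z' i) := by
    funext i
    have hi : (x i : ℕ) < n := by rw [hx i]; exact (z' i).2
    rw [dif_pos hi]
    exact congrArg f (Fin.ext (hx i))
  change M l (fun i => if hv : (x i : ℕ) < n then f ⟨x i, hv⟩ else Classical.arbitrary W)
  rw [e]
  exact h l z' hz'

theorem pad_conn {n N : ℕ} (hn : n ≤ N) (har : ∀ l, 1 ≤ τ.ar l) (D : Str τ (Fin n))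
    (hD : Connected D) : Conn (pad N D) := by
  intro S hS hA
  have h1 := hD {v | Fin.castLE hn v ∈ S} (by
    intro l z hz
    by_cases h : ∃ i, Fin.castLE hn (z i) ∈ S
    · left
      exact hS l (fun i => Fin.castLE hn (z i)) ⟨z, hz, fun i => rfl⟩ h
    · right
      intro i hi
      exact h ⟨i, hi⟩)
  obtain ⟨l₀, z₀, ⟨z₀', hz₀', he⟩, hz₀S⟩ := hA
  have h2 : ({v | Fin.castLE hn v ∈ S} : Set (Fin n)) = Set.univ := by
    rcases h1 with h1 | h1
    · exfalso
      have h3 : z₀' ⟨0, har l₀⟩ ∈ ({v | Fin.castLE hn v ∈ S} : Set (Fin n)) := by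
        change Fin.castLE hn (z₀' ⟨0, har l₀⟩) ∈ S
        have h4 : Fin.castLE hn (z₀' ⟨0, har l₀⟩) = z₀ ⟨0, har l₀⟩ := Fin.ext (he _).symm
        rw [h4]
        exact hz₀S _
      rw [h1] at h3
      exact h3
    · exact h1
  rintro l z ⟨z', hz', hz⟩ i
  have h5 : z' i ∈ ({v | Fin.castLE hn v ∈ S} : Set (Fin n)) := by rw [h2]; trivial
  have h6 : Fin.castLE hn (z' i) = z i := Fin.ext (hz i).symm
  change Fin.castLE hn (z' i) ∈ S at h5
  rwa [h6] at h5

theorem pf_PAD : Pool.Agent.H53.GM.T_PAD := by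
  intro τ σ Al L A 𝔸 hne har hL hA
  -- each structure in the list has an atom and an element
  have h1 : ∃ M : Str τ (Fin 1), Avoids L M ∧ Cols Al M (fun _ _ => False) :=
    (hA 1 (fun _ _ => False)).1 ⟨fun _ => hne.some, fun l x hx => hx.elim⟩
  obtain ⟨M₁, hM₁, -⟩ := h1
  have hat : ∀ D ∈ L, ∃ (l : Fin τ.m) (z : Fin (τ.ar l) → Fin D.1), D.2 l z := by
    intro D hD
    by_contra hcon
    refine hM₁ D hD (fun _ => 0) fun l x hx => ?_
    exact (hcon ⟨l, x, hx⟩).elim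
  have hpos : ∀ D ∈ L, 1 ≤ D.1 := by
    intro D hD
    obtain ⟨l, z, -⟩ := hat D hD
    have := (z ⟨0, har l⟩).2
    omega
  set N : ℕ := 1 + ∑ c, τ.ar c + (L.map Sigma.fst).sum with hN
  have hle : ∀ D ∈ L, D.1 ≤ N := by
    intro D hD
    have h2 : D.1 ≤ (L.map Sigma.fst).sum :=
      List.single_le_sum (fun _ _ => Nat.zero_le _) _ (List.mem_map_of_mem hD)
    omega
  have hval : ∀ (W : Type) (M : Str τ W), Nonempty W →
      (Val {D' : Str τ (Fin N) | ∃ D ∈ L, D' = pad N D.2} M ↔ Avoids L M) := by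
    intro W M hW
    constructor
    · intro h D hD f hf
      obtain ⟨g, hg⟩ := pad_hom' (N := N) D.2 M f hf
      exact h (pad N D.2) ⟨D, hD, rfl⟩ g hg
    · rintro h D' ⟨D, hD, rfl⟩ f hf
      exact h D hD _ (pad_hom (hle D hD) D.2 M f hf)
  refine ⟨N, {D' | ∃ D ∈ L, D' = pad N D.2}, ⟨by omega, ?_, ?_, ?_⟩, hval, ?_⟩
  · intro l
    refine ⟨har l, ?_⟩
    have h2 : τ.ar l ≤ ∑ c, τ.ar c :=
      Finset.single_le_sum (fun _ _ => Nat.zero_le _) (Finset.mem_univ l)
    omega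
  · rintro D' ⟨D, hD, rfl⟩
    exact pad_conn (hle D hD) har D.2 (hL D hD)
  · rintro D' ⟨D, hD, rfl⟩
    obtain ⟨l, z, hz⟩ := hat D hD
    exact ⟨l, fun i => Fin.castLE (hle D hD) (z i), ⟨z, hz, fun i => rfl⟩, fun i => trivial⟩
  · intro n 𝕏
    rw [hA n 𝕏]
    refine exists_congr fun M => and_congr_left fun _ => ?_
    rcases Nat.eq_zero_or_pos n with rfl | hn
    · constructor
      · intro _ D' _ f _
        exact (f ⟨0, by omega⟩).elim0
      · intro _ D hD f _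
        exact (f ⟨0, hpos D hD⟩).elim0
    · exact (hval (Fin n) M ⟨⟨0, hn⟩⟩).symm

end Pool.Agent.H97.GM
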